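import Mathlib
import Pool.Agent.T6.H51.SC.Main

/-!
# Multisecant lines of complete intersections

Let `X` be the closed subscheme of the projective space `P^N` over `ℂ` defined by `m` forms of
degrees at least `k`, and let `k * (m - 1) < N`. Then every point of `P^N` lies on a `k`-secant
line to `X`.
-/

set_option autoImplicit false

namespace Pool.Agent.Results.MP_b7a448_ag.CompleteIntersections

open MvPolynomial

/-- The binary form `∑ c l * s ^ (e - l) * t ^ l` (`0 ≤ l ≤ e`) of degree `e`. -/
noncomputable def binaryForm (e : ℕ) (c : Fin (e + 1) → ℂ) (s t : ℂ) : ℂ :=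
  ∑ l : Fin (e + 1), c l * s ^ (e - (l : ℕ)) * t ^ (l : ℕ)

/-- The line `L` through the points `v` and `p` of `P^N` (`v` and `p` are linearly independent) is
`k`-secant to the closed subscheme `X` of `P^N` defined by the forms `F i` of degrees `d i`: there
is a nonzero binary form `G` of degree `k` which divides the restrictions `F i (s v + t p)` of all
`F i` to `L`, with a binary form of degree `d i - k` as the quotient. (If all restrictions vanish
then `L` lies in `X`; otherwise the scheme `L ∩ X` is defined in `L` by the greatest common divisor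
of the restrictions, its length is the degree of this divisor, and it is at least `k` exactly if
such a `G` exists.) -/
def IsSecantLine {N m : ℕ} (k : ℕ) (F : Fin m → MvPolynomial (Fin (N + 1)) ℂ) (d : Fin m → ℕ)
    (v p : Fin (N + 1) → ℂ) : Prop :=
  LinearIndependent ℂ ![v, p] ∧
    ∃ c : Fin (k + 1) → ℂ, c ≠ 0 ∧ ∀ i, ∃ h : Fin (d i - k + 1) → ℂ, ∀ s t : ℂ,
      eval (s • v + t • p) (F i) = binaryForm k c s t * binaryForm (d i - k) h s t

/-- If `X` is defined by `m` forms of degrees at least `k` and `k * (m - 1) + 1 ≤ N`, then every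
point `p` of `P^N` lies on a `k`-secant line to `X`. -/
theorem result (N m k : ℕ) (F : Fin m → MvPolynomial (Fin (N + 1)) ℂ) (d : Fin m → ℕ)
    (hF : ∀ i, (F i).IsHomogeneous (d i)) (hd : ∀ i, k ≤ d i) (hN : k * (m - 1) + 1 ≤ N)
    (p : Fin (N + 1) → ℂ) (hp : p ≠ 0) : ∃ v : Fin (N + 1) → ℂ, IsSecantLine k F d v p := by
  obtain ⟨i0, hi0⟩ : ∃ i0, p i0 ≠ 0 := by
    by_contra hc
    push Not at hc
    exact hp (funext hc)
  have hN1 : 1 ≤ N := by omega
  have hN2 : k * m < N + k := by
    rcases Nat.eq_zero_or_pos m with hm | hm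
    · subst hm
      omega
    · obtain ⟨m', rfl⟩ : ∃ m', m = m' + 1 := ⟨m - 1, by omega⟩
      rw [Nat.add_sub_cancel] at hN
      rw [Nat.mul_succ]
      omega
  obtain ⟨v, hv0, hv, c, hc, h⟩ := Pool.Agent.T6.H51.SC.allp F d hF hd hN2 hN1 p i0 hi0
  refine ⟨v, ?_, c, hc, h⟩
  rw [LinearIndependent.pair_iff]
  intro a b hab
  have h1 := congrFun hab i0
  simp only [Pi.add_apply, Pi.smul_apply, smul_eq_mul, Pi.zero_apply, hv0, mul_zero, zero_add] at h1
  have hb : b = 0 := (mul_eq_zero.1 h1).resolve_right hi0
  rw [hb, zero_smul, add_zero] at hab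
  exact ⟨(smul_eq_zero.1 hab).resolve_right hv, hb⟩

end Pool.Agent.Results.MP_b7a448_ag.CompleteIntersections
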